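import Pool.Agent.H249.ML.Two
import Pool.Agent.H249.ML.Rec

/-!
# The dimensions when all relations follow from finitely many

`H` is the algebra of the polynomials in one variable over the shuffle algebra on the letters `0, 1, 2, ...`. For the
multiple Clausen values (`b = false`) the letter `a` has weight `a + 2` and the variable (`2 π i`) has weight `1`, for the
alternating multiple zeta values (`b = true`) the letter `a` has weight `2 a + 1` and the variable (`π²`) has weight `2`.
A period map is a surjective homomorphism of graded algebras from `H` to the (external) direct sum of the spaces `C_w`,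
respectively `Z_w(2)` (it exists by Deligne's theorems); its kernel is the ideal of all relations.

The theorem: either the ideal of the relations is not finitely generated, or there are integers `a`, `c` such
that `dim V_n = a F_(n+1) + c F_n` for all large `n`. Then the quotients `dim V_n / F_(n+1)` converge to
`a + c / φ`, `φ` the golden ratio; the limit is positive and at most `1`; and the conjecture
`dim V_n = F_(n+1)` for all `n` holds if and only if `a = 1`, `c = 0`.
-/

set_option autoImplicit false

open Submodule Module Polynomial Filter Topology

namespace Pool.Agent.Results.MP_528be1_nt.FibonacciRecurrence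

open Pool.Agent.H249.ML.Two

/-- **Theorem.** Let `ev` be a period map for the multiple Clausen values (`b = false`) or the alternating multiple zeta
values (`b = true`). Either the ideal of all relations is not finitely generated, or there are integers `a`, `c`
with `dim V_n = a F_(n+1) + c F_n` for all large `n`. In the second case `dim V_n / F_(n+1)` tends to `a + c / φ`, a number
in `(0, 1]`, and `dim V_n = F_(n+1)` for all `n` if and only if `a = 1`, `c = 0`. -/
theorem result (b : Bool) (ev : H →ₐ[ℚ] ℂ[X]) (hev : IsPeriodMap b ev) :
    ¬ (RingHom.ker ev).FG ∨ ∃ a c : ℤ,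
      (∃ n₀, ∀ n ≥ n₀, (finrank ℚ (Z b n) : ℤ) = a * Nat.fib (n + 1) + c * Nat.fib n) ∧
      0 < a + c / Real.goldenRatio ∧ a + c / Real.goldenRatio ≤ 1 ∧
      Tendsto (fun n => (finrank ℚ (Z b n) : ℝ) / Nat.fib (n + 1)) atTop (𝓝 (a + c / Real.goldenRatio)) ∧
      ((∀ n, finrank ℚ (Z b n) = Nat.fib (n + 1)) ↔ a = 1 ∧ c = 0) := by
  by_cases hfg : (RingHom.ker ev).FG
  · right
    obtain ⟨z, hz, hX⟩ := vari_ne hev
    exact Pool.Agent.H249.ML.fib_closed (dim_part b) (period_iff hev) hz hX hfg
  · exact Or.inl hfg

end Pool.Agent.Results.MP_528be1_nt.FibonacciRecurrence
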