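import Pool.Agent.H249.ML.Two

/-!
# When do all relations between multiple Clausen values (alternating values) follow from finitely many?

`H` is the algebra of the polynomials in one variable over the shuffle algebra on the letters `0, 1, 2, ...`. For the
multiple Clausen values the letter `a` has weight `a + 2` and the variable (`2 π i`) has weight `1`, for the alternating
multiple zeta values the letter `a` has weight `2 a + 1` and the variable (`π²`) has weight `2`. The derivation
`cut a` removes the first letter of a word if it is `a`, and sends all other words and the variable to zero; `F` is the Lie
algebra generated by these derivations. A period map is a surjective homomorphism of graded algebras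
from `H` to the (external) direct sum of the spaces `C_w`, respectively `Z_w(2)` (it exists by Deligne's theorems); its
kernel is the ideal of all relations. The theorem: the ideal of the relations is finitely generated if and only if all
elements of `F` of sufficiently large degree preserve it.
-/

set_option autoImplicit false

open Submodule Module Polynomial

namespace Pool.Agent.Results.MP_528be1_nt.FinitelyManyRelations

open Pool.Agent.H249.ML.Two

/-- **Theorem.** For every period map `ev` (for the multiple Clausen values, `b = false`, or the alternating multiple zeta
values, `b = true`) the ideal of all relations is finitely generated if and only if, for some `N`, every element of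
`F` of a degree larger than `N` preserves the relations. -/
theorem result (b : Bool) (ev : H →ₐ[ℚ] ℂ[X]) (hev : IsPeriodMap b ev) :
    (RingHom.ker ev).FG ↔
      ∃ N, ∀ k > N, ∀ d, F.Has d → Lowers b k d → ∀ x, ev x = 0 → ev (d.app x) = 0 :=
  (Pool.Agent.H249.ML.fg (period_iff hev)).trans
    (exists_congr fun _ => ⟨fun h k hk d hd hd' x hx => h k hk d ⟨hd, hd'⟩ x hx,
      fun h k hk d hd x hx => h k hk d hd.1 hd.2 x hx⟩)

end Pool.Agent.Results.MP_528be1_nt.FinitelyManyRelations
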