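import Pool.Agent.Q187.ZD.Fib

/-!
# Multiple Clausen values and alternating multiple zeta values: infinitely many weights suffice

If the dimension is smaller than `F_(k+1)` in one weight `k`, then it is at most
`F_(N+1) - F_(N-k+1)` in every weight `N ≥ k`. So the conjecture in one weight implies it in all
smaller weights, and it holds in all weights if it holds in infinitely many weights, or only
asymptotically along a sequence of weights.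
-/

set_option autoImplicit false

open Module

namespace Pool.Agent.Results.MP_528be1_nt.InfinitelyManyWeights

open Pool.Agent.Q187.ZD.Fib

theorem result {H H' : Type} [CommRing H] [Algebra ℚ H] [CommRing H'] [Algebra ℚ H']
    (gr : ℕ → Submodule ℚ H) (per : H →ₐ[ℚ] ℂ) (h : IsMotivic clausen gr per)
    (gr' : ℕ → Submodule ℚ H') (per' : H' →ₐ[ℚ] ℂ) (h' : IsMotivic alternating gr' per') :
    (∀ Z : ℕ → Submodule ℚ ℂ, (Z = clausen ∨ Z = alternating) →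
      (∀ k N, 1 ≤ k → k ≤ N → finrank ℚ (Z k) ≠ Nat.fib (k + 1) →
        finrank ℚ (Z N) + Nat.fib (N - k + 1) ≤ Nat.fib (N + 1)) ∧
      (∀ k N, 1 ≤ k → k ≤ N → Nat.fib (N + 1) < finrank ℚ (Z N) + Nat.fib (N - k + 1) →
        ∀ j, 1 ≤ j → j ≤ k → finrank ℚ (Z j) = Nat.fib (j + 1)) ∧
      ((∀ w, 1 ≤ w → finrank ℚ (Z w) = Nat.fib (w + 1)) ↔
        ∀ N₀, ∃ N ≥ N₀, finrank ℚ (Z N) = Nat.fib (N + 1)) ∧
      ((∀ w, 1 ≤ w → finrank ℚ (Z w) = Nat.fib (w + 1)) ↔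
        ∀ ε : ℝ, 0 < ε → ∀ N₀, ∃ N ≥ N₀, (1 - ε) * Nat.fib (N + 1) ≤ finrank ℚ (Z N))) ∧
    ((∀ w, 1 ≤ w → finrank ℚ (clausen w) = Nat.fib (w + 1) ∧
        finrank ℚ (alternating w) = Nat.fib (w + 1)) ↔
      (∀ N₀, ∃ N ≥ N₀, finrank ℚ (clausen N) = Nat.fib (N + 1)) ∧
        ∀ N₀, ∃ N ≥ N₀, finrank ℚ (alternating N) = Nat.fib (N + 1)) := by
  have key : ∀ {H : Type} [CommRing H] [Algebra ℚ H] (gr : ℕ → Submodule ℚ H) (per : H →ₐ[ℚ] ℂ)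
      (Z : ℕ → Submodule ℚ ℂ), IsMotivic Z gr per →
      (∀ k N, 1 ≤ k → k ≤ N → finrank ℚ (Z k) ≠ Nat.fib (k + 1) →
        finrank ℚ (Z N) + Nat.fib (N - k + 1) ≤ Nat.fib (N + 1)) ∧
      (∀ k N, 1 ≤ k → k ≤ N → Nat.fib (N + 1) < finrank ℚ (Z N) + Nat.fib (N - k + 1) →
        ∀ j, 1 ≤ j → j ≤ k → finrank ℚ (Z j) = Nat.fib (j + 1)) ∧
      ((∀ w, 1 ≤ w → finrank ℚ (Z w) = Nat.fib (w + 1)) ↔
        ∀ N₀, ∃ N ≥ N₀, finrank ℚ (Z N) = Nat.fib (N + 1)) ∧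
      ((∀ w, 1 ≤ w → finrank ℚ (Z w) = Nat.fib (w + 1)) ↔
        ∀ ε : ℝ, 0 < ε → ∀ N₀, ∃ N ≥ N₀, (1 - ε) * Nat.fib (N + 1) ≤ finrank ℚ (Z N)) := by
    intro H _ _ gr per Z h
    exact ⟨fun k N h1 h2 h3 => drop h h1 h2 h3,
      fun k N h1 h2 h3 j h4 h5 => eq_of_eq h h4 h5 (eq_of_lt h h1 h2 h3),
      all_iff_infinite h, all_iff_asymptotic h⟩
  refine ⟨fun Z hZ => ?_, ?_⟩
  · rcases hZ with rfl | rfl
    · exact key gr per _ h
    · exact key gr' per' _ h'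
  · rw [← all_iff_infinite h, ← all_iff_infinite h', ← forall_and]
    exact forall_congr' fun w => ⟨fun h1 => ⟨fun hw => (h1 hw).1, fun hw => (h1 hw).2⟩,
      fun h1 hw => ⟨h1.1 hw, h1.2 hw⟩⟩

end Pool.Agent.Results.MP_528be1_nt.InfinitelyManyWeights
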