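import Pool.Agent.H249.ML.Two

/-!
# The part of the motivic Lie algebra which acts on multiple Clausen values (alternating multiple zeta values)

`H` is the algebra of the polynomials in one variable over the shuffle algebra on the letters `0, 1, 2, ...`. For the
multiple Clausen values the letter `a` has weight `a + 2` and the variable (`2 π i`) has weight `1`, for the alternating
multiple zeta values the letter `a` has weight `2 a + 1` and the variable (`π²`) has weight `2`; in both cases the part of
weight `w` has dimension `F_(w+1)`. The derivation `cut a` removes the first letter of a word if it is `a`, and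
sends all other words and the variable to zero; `F` is the Lie algebra generated by these derivations. A period map is a
surjective homomorphism of graded algebras from `H` to the (external) direct sum of the spaces `C_w`, respectively
`Z_w(2)` (it exists by Deligne's theorems). For every period map `ev`:

* There is a largest graded Lie subalgebra `S₀` of `F` which preserves the kernel of `ev` (the relations).
* A graded Lie subalgebra `S` of `F` is contained in `S₀` if and only if the kernel is generated by
  its elements which are killed by `S`.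
* For every graded Lie subalgebra `S` the dimension of the space of weight `n` is at most the coefficient of `X^n` in
  `(∑ dim ev(H^S)_w X^w) / ∏_k (1 - X^k)^(dim S_k)`, with equality for all `n` if and only if `S` is contained in `S₀`.
* The dimension in every weight `w` is `F_(w+1)` if and only if `S₀ = F`.
-/

set_option autoImplicit false

open Submodule Module Polynomial

namespace Pool.Agent.Results.MP_528be1_nt.StabilizersAndDimensions

open Pool.Agent.H249.ML.Two

/-- `S` is a graded Lie subalgebra of `F`: it is spanned by its elements of the degrees `1, 2, 3, ...`. -/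
def IsGradedSub (b : Bool) (S : LieSub) : Prop :=
  S ≤ F ∧ ∀ d, S.Has d → d ∈ Submodule.span ℚ {d' | S.Has d' ∧ ∃ k, Lowers b (k + 1) d'}

/-- The relations (the kernel of `ev`) are preserved by `S`. -/
def Stable (ev : H →ₐ[ℚ] ℂ[X]) (S : LieSub) : Prop := ∀ d, S.Has d → ∀ x, ev x = 0 → ev (d.app x) = 0

/-- The ideal of the relations is generated by relations which are killed by `S`. -/
def Generated (ev : H →ₐ[ℚ] ℂ[X]) (S : LieSub) : Prop :=
  ∀ x, ev x = 0 → x ∈ Ideal.span {y | ev y = 0 ∧ ∀ d, S.Has d → d.app y = 0}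

/-- The dimension of the space of the values of the elements of weight `w` which are killed by `S`. -/
noncomputable def dimInv (b : Bool) (ev : H →ₐ[ℚ] ℂ[X]) (S : LieSub) (w : ℕ) : ℕ :=
  Set.finrank ℚ {p : ℂ[X] | ∃ x ∈ part b w, (∀ d, S.Has d → d.app x = 0) ∧ ev x = p}

/-- The dimension of the part of degree `k` of `S`. -/
noncomputable def dimLie (b : Bool) (S : LieSub) (k : ℕ) : ℕ := Set.finrank ℚ {d : Der | S.Has d ∧ Lowers b k d}

/-- The coefficient of `X ^ n` in `(∑ dimInv b ev S w * X ^ w) / ∏_k (1 - X ^ k) ^ dimLie b S k`. -/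
noncomputable def bound (b : Bool) (ev : H →ₐ[ℚ] ℂ[X]) (S : LieSub) (n : ℕ) : ℚ :=
  PowerSeries.coeff n (PowerSeries.mk (fun w => (dimInv b ev S w : ℚ)) *
    (∏ k ∈ Finset.Icc 1 n, (1 - PowerSeries.X ^ k) ^ dimLie b S k)⁻¹)

section

open Pool.Agent.H249.MZ

theorem graded_iff (b : Bool) (S : LieSub) : IsGradedSub b S ↔ Pool.Agent.H249.ML.IsGradedSub (W b) S := by
  refine and_congr Iff.rfl ?_
  have h1 : (Submodule.span ℚ {d' : Derivation ℚ HH HH | S.Has d' ∧ ∃ k, Lowers b (k + 1) d'} :
      Submodule ℚ (Derivation ℚ HH HH)) =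
      (⨆ k : ℕ, LieSubalgebra.toSubmodule (L := Derivation ℚ HH HH) S ⊓ Deg (Pool.Agent.H249.ML.deg (W b)) (k + 1) :
        Submodule ℚ (Derivation ℚ HH HH)) := by
    apply le_antisymm
    · refine Submodule.span_le.mpr ?_
      rintro d ⟨h1, k, h2⟩
      exact Submodule.mem_iSup_of_mem k ⟨h1, h2⟩
    · refine iSup_le fun k => ?_
      rintro d ⟨h1, h2⟩
      exact Submodule.subset_span ⟨h1, k, h2⟩
  constructor
  · intro h d hd
    exact h1.le (h d hd)
  · intro h d hd
    exact h1.ge (h hd)

theorem dimInv_eq (b : Bool) (ev : H →ₐ[ℚ] ℂ[X]) (S : LieSub) (w : ℕ) :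
    dimInv b ev S w = Pool.Agent.H249.ML.dimInv (W b) ev S w := by
  unfold dimInv Pool.Agent.H249.ML.dimInv Set.finrank
  congr 2
  all_goals
    apply le_antisymm
    · refine Submodule.span_le.mpr ?_
      rintro p ⟨x, hx, h1, rfl⟩
      exact ⟨x, ⟨h1, hx⟩, rfl⟩
    · rintro p ⟨x, ⟨h1, hx⟩, rfl⟩
      exact Submodule.subset_span ⟨x, hx, h1, rfl⟩

theorem dimLie_eq (b : Bool) (S : LieSub) (k : ℕ) : dimLie b S k = Pool.Agent.H249.ML.dimLie (W b) S k := by
  have h1 : (Submodule.span ℚ {d : Derivation ℚ HH HH | S.Has d ∧ Lowers b k d} : Submodule ℚ (Derivation ℚ HH HH)) =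
      (LieSubalgebra.toSubmodule (L := Derivation ℚ HH HH) S ⊓ Deg (Pool.Agent.H249.ML.deg (W b)) k :
        Submodule ℚ (Derivation ℚ HH HH)) := by
    apply le_antisymm
    · refine Submodule.span_le.mpr ?_
      rintro d ⟨h1, h2⟩
      exact ⟨h1, h2⟩
    · rintro d ⟨h1, h2⟩
      exact Submodule.subset_span ⟨h1, h2⟩
  exact congrArg (fun V : Submodule ℚ (Derivation ℚ HH HH) => finrank ℚ V) h1

theorem bound_eq (b : Bool) (ev : H →ₐ[ℚ] ℂ[X]) (S : LieSub) (n : ℕ) :
    bound b ev S n = Pool.Agent.H249.ML.bound (W b) ev S n := by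
  unfold bound Pool.Agent.H249.ML.bound
  simp only [dimInv_eq, dimLie_eq]

end

/-- **Theorem.** For every period map `ev` (for the multiple Clausen values, `b = false`, or the alternating multiple zeta
values, `b = true`) there is a largest graded Lie subalgebra `S₀` of `F` which preserves the relations. For graded
Lie subalgebras `S` of `F` the following are equivalent: `S` is contained in `S₀`; the relations are generated by
relations killed by `S`; `dim Z_n` is equal to the bound `bound b ev S n` for all `n`, which holds for every `S`. The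
dimension is `F_(n+1)` in all weights `n` if and only if `S₀ = F`. -/
theorem result (b : Bool) (ev : H →ₐ[ℚ] ℂ[X]) (hev : IsPeriodMap b ev) :
    ∃ S₀ : LieSub, IsGradedSub b S₀ ∧
      (∀ S, IsGradedSub b S → (Stable ev S ↔ S ≤ S₀) ∧ (Generated ev S ↔ S ≤ S₀) ∧
        ((∀ n, (finrank ℚ (Z b n) : ℚ) = bound b ev S n) ↔ S ≤ S₀) ∧
        ∀ n, (finrank ℚ (Z b n) : ℚ) ≤ bound b ev S n) ∧
      ((∀ n, finrank ℚ (Z b n) = Nat.fib (n + 1)) ↔ S₀ = F) := by
  obtain ⟨z, hz, hX⟩ := vari_ne hev
  obtain ⟨S₀, h1, h2, h3⟩ := Pool.Agent.H249.ML.main (period_iff hev) hz hX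
  refine ⟨S₀, (graded_iff b S₀).mpr h1, fun S hS => ?_, ?_⟩
  · obtain ⟨g1, g2, g3, g4⟩ := h2 S ((graded_iff b S).mp hS)
    refine ⟨g1, g2, ?_, fun n => ?_⟩
    · simp only [bound_eq]
      exact g3
    · rw [bound_eq]
      exact g4 n
  · refine Iff.trans (forall_congr' fun n => ?_) h3
    rw [dim_part]

end Pool.Agent.Results.MP_528be1_nt.StabilizersAndDimensions
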